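import Pool.Agent.Y405.SU.Perf
import Pool.Agent.Y259.SV.Invv

/-!
# Forms invariant under the isometries in an open subgroup, unitary case

Adaptation of the file `Pool/Agent/Y259/SV/Invv.lean`.
-/

set_option autoImplicit false

open Matrix Filter Topology
open Pool.Agent.Y142.ZO Pool.Agent.Y142.ZI Pool.Agent.Y142.ZS
open Pool.Agent.Y142.SU

namespace Pool.Agent.X274.SU

theorem t_invu : S_INVU := by
  intro ℓ _ N G _ _ _ _ ρ hρ J 𝒞 hH hnil hsim htan k φ U hU hφ X hX v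
  have hmem := Pool.Agent.Y405.SU.t ℚ_[ℓ] N J 𝒞 hH hnil X hX
  have hle : Submodule.span ℚ_[ℓ] {Z : Matrix (Fin N) (Fin N) ℚ_[ℓ] |
      ∃ Y Y' : Matrix (Fin N) (Fin N) ℚ_[ℓ],
        SULie J 𝒞 Y ∧ SULie J 𝒞 Y' ∧ Z = Y * Y' - Y' * Y} ≤ Pool.Agent.Y259.SV.kill φ v := by
    rw [Submodule.span_le]
    rintro Z ⟨Y, Y', hY, hY', rfl⟩
    obtain ⟨σ, hσ⟩ := Pool.Agent.Y664.ZS.tangent_bracket hsim (htan Y hY) (htan Y' hY')
    exact Pool.Agent.Y100.ZS.inv_tanS (σ := fun n => (σ n).1) (fun n => (σ n).2) hσ φ U hU hφ v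
  exact hle hmem

end Pool.Agent.X274.SU
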