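import Pool.Agent.Y710.SV.Fftv
import Pool.Agent.Y130.Fft
import Pool.Agent.Y177.SU.Alg
import Pool.Agent.Y259.SV.Invv

/-! # The first fundamental theorem for products of special linear groups, in small degree
(task FFTU of the project Y142-SU)

The form pairs the block `t` with the block `star t ≠ t`. The plan is the one of
`Pool/Agent/Y710/SV/Fftv.lean`. In degree less than the dimension of the blocks the invariants of the
special linear Lie algebra are invariants of the general linear one. -/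

set_option autoImplicit false
set_option linter.unusedSectionVars false

open Matrix
open Pool.Agent.Y142.ZO (bil)
namespace Pool.Agent.X274.SU

open Pool.Agent.Y142.SU (FromHerm Herm SULie S_FFTU)
open Pool.Agent.Y100.ZS (mate mate_mate mate_ne mate_e0 mate_e1)
open Pool.Agent.Y155.ZI (Tσ Tσ_apply bil_toBilin)
open Pool.Agent.TH125.Nod (blk Sup gen Gen)
open Pool.Agent.Y130 (InvS fftS)
open Pool.Agent.Y710.SV

variable {F : Type} [Field F] {N n k : ℕ} {J : Matrix (Fin N) (Fin N) F}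
    {𝒞 : Subalgebra F (Matrix (Fin N) (Fin N) F)}

variable (Φ : Frm J 𝒞 n)

theorem ext_vec {M M' : Matrix (Fin N) (Fin N) F}
    (h : ∀ s, M *ᵥ Φ.β s = M' *ᵥ Φ.β s) : M = M' := by
  have h1 : ∀ v, M *ᵥ v = M' *ᵥ v := by
    intro v
    rw [Φ.full v, Matrix.mulVec_sum, Matrix.mulVec_sum]
    refine Finset.sum_congr rfl fun s _ => ?_
    rw [mulVec_smul, mulVec_smul, h]
  ext i j
  have h2 := congrFun (h1 (Pi.single j 1)) i
  simpa using h2

theorem E_idem (t : Φ.T) : Φ.E t * Φ.E t = Φ.E t := by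
  refine ext_vec Φ fun s => ?_
  rw [← mulVec_mulVec, Φ.Eβ]
  split_ifs with h
  · rw [Φ.Eβ, if_pos h]
  · rw [mulVec_zero]

theorem E_orth {t u : Φ.T} (h : t ≠ u) : Φ.E t * Φ.E u = 0 := by
  refine ext_vec Φ fun s => ?_
  rw [← mulVec_mulVec, Φ.Eβ, zero_mulVec]
  split_ifs with h1
  · rw [Φ.Eβ, if_neg]
    rw [h1]
    exact Ne.symm h
  · rw [mulVec_zero]

theorem E_sum : ∑ t, Φ.E t = 1 := by
  refine ext_vec Φ fun s => ?_
  rw [Matrix.sum_mulVec, one_mulVec, Finset.sum_congr rfl fun t _ => Φ.Eβ t s]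
  rw [Finset.sum_ite_eq, if_pos (Finset.mem_univ _)]

theorem E_ne (hn : 0 < n) (t : Φ.T) : Φ.E t ≠ 0 := by
  intro h0
  have h1 := Φ.many t
  have h2 : 0 < (blk Φ.κ t).card := lt_of_lt_of_le hn h1
  obtain ⟨s, hs⟩ := Finset.card_pos.1 h2
  rw [Pool.Agent.TH125.Nod.mem_blk] at hs
  have h3 := Φ.Eβ t s
  rw [h0, zero_mulVec, if_pos hs] at h3
  -- a basis vector is not zero
  have h4 := Φ.QR
  have h5 := congrFun (congrFun h4 s) s
  rw [Matrix.mul_apply, Matrix.one_apply_eq] at h5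
  apply one_ne_zero (α := F)
  rw [← h5]
  refine Finset.sum_eq_zero fun p _ => ?_
  rw [Φ.hQ, ← h3]
  unfold bil
  rw [zero_dotProduct, zero_mul]

/-- the dual block -/
theorem exists_star (hn : 0 < n) (hH : Herm J 𝒞) :
    ∃ star : Φ.T → Φ.T, (∀ t, (Φ.E t)ᵀ * J = J * Φ.E (star t)) ∧ (∀ t, star (star t) = t) ∧
      ∀ t, star t ≠ t := by
  classical
  obtain ⟨hJ, hdet, hcomm, hadj, A₀, hA₀, A₀', hA₀', hAA, hAdet⟩ := hH
  have hu : IsUnit J.det := isUnit_iff_ne_zero.2 hdet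
  have hJi : J⁻¹ * J = 1 := Matrix.nonsing_inv_mul J hu
  have hJi' : J * J⁻¹ = 1 := Matrix.mul_nonsing_inv J hu
  have hcancel : ∀ {A B : Matrix (Fin N) (Fin N) F}, J * A = J * B → A = B := by
    intro A B h
    calc A = J⁻¹ * (J * A) := by rw [← mul_assoc, hJi, one_mul]
      _ = J⁻¹ * (J * B) := by rw [h]
      _ = B := by rw [← mul_assoc, hJi, one_mul]
  choose! σ hσC hσ using hadj
  have hσmul : ∀ A ∈ 𝒞, ∀ B ∈ 𝒞, σ (A * B) = σ B * σ A := by
    intro A hA B hB
    apply hcancel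
    rw [← hσ _ (𝒞.mul_mem hA hB), transpose_mul, mul_assoc, hσ A hA, ← mul_assoc, hσ B hB,
      mul_assoc]
  have hσσ : ∀ A ∈ 𝒞, σ (σ A) = A := by
    intro A hA
    apply hcancel
    rw [← hσ _ (hσC A hA)]
    have h1 := congrArg Matrix.transpose (hσ A hA)
    rw [transpose_mul, transpose_mul, transpose_transpose] at h1
    rcases hJ with h2 | h2
    · rw [h2] at h1
      rw [← h1]
    · rw [h2, neg_mul, mul_neg] at h1
      rw [← neg_inj, ← h1]
  have hσ0 : ∀ A ∈ 𝒞, σ A = 0 → A = 0 := by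
    intro A hA h
    rw [← hσσ A hA, h]
    apply hcancel
    rw [← hσ 0 𝒞.zero_mem, transpose_zero, zero_mul, mul_zero]
  have hex : ∀ t, ∃ u, σ (Φ.E t) = Φ.E u := by
    intro t
    choose c hc using Φ.eig (σ (Φ.E t)) (hσC _ (Φ.mem t))
    have h1 : σ (Φ.E t) = ∑ u, c u • Φ.E u := by
      rw [← mul_one (σ (Φ.E t)), ← E_sum Φ, Finset.mul_sum]
      exact Finset.sum_congr rfl fun u _ => hc u
    have h2 : ∃ u, c u ≠ 0 := by
      by_contra hcon
      push Not at hcon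
      apply E_ne Φ hn t
      apply hσ0 _ (Φ.mem t)
      rw [h1]
      exact Finset.sum_eq_zero fun u _ => by rw [hcon u, zero_smul]
    obtain ⟨u, hu0⟩ := h2
    have h3 : σ (Φ.E t) * σ (Φ.E t) = σ (Φ.E t) := by
      rw [← hσmul _ (Φ.mem t) _ (Φ.mem t), E_idem]
    have h4 : c u * c u = c u := by
      have h5 := hc u
      have h6 : σ (Φ.E t) * (σ (Φ.E t) * Φ.E u) = c u • Φ.E u := by
        rw [← mul_assoc, h3, h5]
      rw [h5, mul_smul_comm, h5, smul_smul] at h6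
      have h7 : (c u * c u - c u) • Φ.E u = 0 := by rw [sub_smul, h6, sub_self]
      rcases smul_eq_zero.1 h7 with h8 | h8
      · exact sub_eq_zero.1 h8
      · exact absurd h8 (E_ne Φ hn u)
    have h5 : c u = 1 := mul_right_cancel₀ hu0 (by rw [h4, one_mul])
    have h6 : σ (Φ.E t) * Φ.E u = Φ.E u := by rw [hc u, h5, one_smul]
    have h7 : σ (Φ.E u) * Φ.E t = σ (Φ.E u) := by
      have h8 := congrArg σ h6
      rw [hσmul _ (hσC _ (Φ.mem t)) _ (Φ.mem u), hσσ _ (Φ.mem t)] at h8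
      exact h8
    obtain ⟨d, hd⟩ := Φ.eig (σ (Φ.E u)) (hσC _ (Φ.mem u)) t
    have h8 : σ (Φ.E u) = d • Φ.E t := by rw [← h7, hd]
    have hd0 : d ≠ 0 := by
      intro h
      rw [h, zero_smul] at h8
      exact E_ne Φ hn u (hσ0 _ (Φ.mem u) h8)
    have h9 : d * d = d := by
      have h10 : σ (Φ.E u) * σ (Φ.E u) = σ (Φ.E u) := by
        rw [← hσmul _ (Φ.mem u) _ (Φ.mem u), E_idem]
      rw [h8, smul_mul_smul_comm, E_idem] at h10
      have h11 : (d * d - d) • Φ.E t = 0 := by rw [sub_smul, h10, sub_self]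
      rcases smul_eq_zero.1 h11 with h12 | h12
      · exact sub_eq_zero.1 h12
      · exact absurd h12 (E_ne Φ hn t)
    have h10 : d = 1 := mul_right_cancel₀ hd0 (by rw [h9, one_mul])
    refine ⟨u, ?_⟩
    rw [h10, one_smul] at h8
    rw [← h8, hσσ _ (Φ.mem u)]
  choose star hstar using hex
  have hinj : ∀ t u, Φ.E t = Φ.E u → t = u := by
    intro t u h
    by_contra hne
    have h1 := E_orth Φ hne
    rw [h, E_idem] at h1
    exact E_ne Φ hn u h1
  refine ⟨star, fun t => ?_, fun t => ?_, fun t ht => ?_⟩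
  · rw [hσ _ (Φ.mem t), hstar]
  · apply hinj
    rw [← hstar, ← hstar, hσσ _ (Φ.mem t)]
  · -- `A₀ - A₀'` would kill the block
    obtain ⟨a, ha⟩ := Φ.eig A₀ hA₀ t
    obtain ⟨a', ha'⟩ := Φ.eig A₀' hA₀' t
    have hst : (Φ.E t)ᵀ * J = J * Φ.E t := by
      rw [hσ _ (Φ.mem t), hstar, ht]
    have h1 : (Φ.E t)ᵀ * A₀ᵀ * J = a • (J * Φ.E t) := by
      rw [← transpose_mul, ha, transpose_smul, smul_mul_assoc, hst]
    have h2 : (Φ.E t)ᵀ * A₀ᵀ * J = a' • (J * Φ.E t) := by
      rw [mul_assoc, hAA, ← mul_assoc, hst, mul_assoc, hcomm _ (Φ.mem t) _ hA₀', ha',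
        mul_smul_comm]
    have h3 : (a - a') • Φ.E t = 0 := by
      apply hcancel
      rw [mul_smul_comm, sub_smul, ← h1, ← h2, sub_self, mul_zero]
    have h4 : a = a' := by
      rcases smul_eq_zero.1 h3 with h5 | h5
      · exact sub_eq_zero.1 h5
      · exact absurd h5 (E_ne Φ hn t)
    have h5 : (A₀ - A₀') * Φ.E t = 0 := by rw [sub_mul, ha, ha', h4, sub_self]
    have h6 : (A₀ - A₀')⁻¹ * (A₀ - A₀') = 1 :=
      Matrix.nonsing_inv_mul _ (isUnit_iff_ne_zero.2 hAdet)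
    apply E_ne Φ hn t
    calc Φ.E t = (A₀ - A₀')⁻¹ * (A₀ - A₀') * Φ.E t := by rw [h6, one_mul]
      _ = 0 := by rw [mul_assoc, h5, mul_zero]

section lie

variable {star : Φ.T → Φ.T} (hst : ∀ t, (Φ.E t)ᵀ * J = J * Φ.E (star t))
  (hss : ∀ t, star (star t) = t) (hsn : ∀ t, star t ≠ t)

include hst in
theorem trace_star (hdet : J.det ≠ 0) (t : Φ.T) : (Φ.E (star t)).trace = (Φ.E t).trace := by
  have hu : IsUnit J.det := isUnit_iff_ne_zero.2 hdet
  have hJi : J⁻¹ * J = 1 := Matrix.nonsing_inv_mul J hu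
  have h1 : Φ.E (star t) = J⁻¹ * ((Φ.E t)ᵀ * J) := by
    rw [hst, ← mul_assoc, hJi, one_mul]
  rw [h1, Matrix.trace_mul_comm, mul_assoc, Matrix.mul_nonsing_inv J hu, mul_one,
    Matrix.trace_transpose]

theorem trace_ne [CharZero F] (hn : 0 < n) (t : Φ.T) : (Φ.E t).trace ≠ 0 := by
  rw [← Pool.Agent.Y177.SU.rank_idem _ (E_idem Φ t)]
  intro h
  have h1 : (Φ.E t).rank = 0 := by exact_mod_cast h
  exact E_ne Φ hn t (Pool.Agent.Y177.SU.eq_zero_of_rank h1)

include hst in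
theorem row_eig (hcomm : ∀ A ∈ 𝒞, ∀ B ∈ 𝒞, A * B = B * A) {A : Matrix (Fin N) (Fin N) F}
    (hA : A ∈ 𝒞) {α : Φ.T → F} (hα : ∀ t, A * Φ.E t = α t • Φ.E t) {a : Φ.T} {u : Fin N → F}
    (hu : Φ.E a *ᵥ u = u) : (u ᵥ* J) ᵥ* A = α (star a) • (u ᵥ* J) := by
  have h1 : u ᵥ* J = u ᵥ* (J * Φ.E (star a)) := by
    conv_lhs => rw [← hu]
    rw [← vecMul_transpose, vecMul_vecMul, hst]
  conv_lhs => rw [h1]
  rw [vecMul_vecMul, mul_assoc, hcomm _ (Φ.mem _) _ hA, hα, mul_smul_comm, vecMul_smul, ← h1]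

theorem col_eig {A : Matrix (Fin N) (Fin N) F} {α : Φ.T → F}
    (hα : ∀ t, A * Φ.E t = α t • Φ.E t) {a : Φ.T} {u : Fin N → F}
    (hu : Φ.E a *ᵥ u = u) : A *ᵥ u = α a • u := by
  conv_lhs => rw [← hu]
  rw [mulVec_mulVec, hα, smul_mulVec, hu]

include hst hss in
/-- elements of the special unitary Lie algebra -/
theorem sw_mem [CharZero F] (hn : 0 < n) {s : F} (hs : s * s = 1) (hJ : Jᵀ = s • J)
    (hdet : J.det ≠ 0) (hcomm : ∀ A ∈ 𝒞, ∀ B ∈ 𝒞, A * B = B * A) {a : Φ.T} {u v : Fin N → F}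
    (hu : Φ.E a *ᵥ u = u) (hv : Φ.E (star a) *ᵥ v = v) :
    SULie J 𝒞 (sw s J u v - (bil J u v / (Φ.E a).trace) • (Φ.E (star a) - Φ.E a)) := by
  refine ⟨fun A hA => ?_, ?_, fun A hA => ?_⟩
  · choose α hα using Φ.eig A hA
    rw [sub_mul, mul_sub, smul_mul_assoc, mul_smul_comm, sub_mul, mul_sub,
      hcomm _ (Φ.mem _) _ hA, hcomm _ (Φ.mem _) _ hA]
    congr 1
    unfold sw
    rw [Matrix.sub_mul, Matrix.mul_sub, Matrix.smul_mul, Matrix.mul_smul, Matrix.vecMulVec_mul,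
      Matrix.vecMulVec_mul, Matrix.mul_vecMulVec, Matrix.mul_vecMulVec,
      row_eig Φ hst hcomm hA hα hu, row_eig Φ hst hcomm hA hα hv, hss,
      col_eig Φ hα hu, col_eig Φ hα hv, vecMulVec_smul, vecMulVec_smul, smul_vecMulVec,
      smul_vecMulVec]
  · rw [transpose_sub, transpose_smul, sub_mul, mul_sub, smul_mul_assoc, mul_smul_comm,
      transpose_sub, sub_mul, mul_sub, hst, hst, hss]
    have h1 := sw_lie hs hJ u v
    have h2 : (sw s J u v)ᵀ * J = -(J * sw s J u v) := eq_neg_of_add_eq_zero_left h1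
    rw [h2]
    have h3 : J * Φ.E a - J * Φ.E (star a) = -(J * Φ.E (star a) - J * Φ.E a) := by abel
    rw [h3, smul_neg]
    abel
  · choose α hα using Φ.eig A hA
    rw [sub_mul, smul_mul_assoc, sub_mul, Matrix.trace_sub, Matrix.trace_smul, Matrix.trace_sub,
      hcomm _ (Φ.mem (star a)) _ hA, hcomm _ (Φ.mem a) _ hA, hα, hα, Matrix.trace_smul,
      Matrix.trace_smul, trace_star Φ hst hdet]
    unfold sw
    rw [Matrix.sub_mul, Matrix.smul_mul, Matrix.vecMulVec_mul, Matrix.vecMulVec_mul,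
      row_eig Φ hst hcomm hA hα hu, row_eig Φ hst hcomm hA hα hv, hss, Matrix.trace_sub,
      Matrix.trace_smul, vecMulVec_smul, vecMulVec_smul, Matrix.trace_smul, Matrix.trace_smul,
      Matrix.trace_vecMulVec, Matrix.trace_vecMulVec]
    have h1 : v ⬝ᵥ u ᵥ* J = bil J u v := by
      unfold bil
      rw [dotProduct_comm, ← dotProduct_mulVec]
    have h2 : u ⬝ᵥ v ᵥ* J = bil J v u := by
      unfold bil
      rw [dotProduct_comm, ← dotProduct_mulVec]
    have h3 : bil J u v = s * bil J v u := bil_s hJ u v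
    have h4 := trace_ne Φ hn a
    rw [h1, h2]
    simp only [smul_eq_mul]
    rw [h3]
    field_simp
    ring

include hst hss in
theorem Q_zero {a b : Φ.S} (h : Φ.κ b ≠ star (Φ.κ a)) : Φ.Q a b = 0 := by
  rw [Φ.hQ]
  have h1 : Φ.E (Φ.κ a) *ᵥ Φ.β a = Φ.β a := by rw [Φ.Eβ, if_pos rfl]
  have h2 : Φ.E (star (Φ.κ a)) *ᵥ Φ.β b = 0 := by rw [Φ.Eβ, if_neg h]
  unfold bil
  rw [← h1, ← vecMul_transpose, ← dotProduct_mulVec, mulVec_mulVec, hst,
    ← mulVec_mulVec, h2, mulVec_zero, dotProduct_zero]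

include hst in
theorem bil_zero {a b : Φ.T} {x y : Fin N → F} (hx : Φ.E a *ᵥ x = x) (hy : Φ.E b *ᵥ y = y)
    (h : b ≠ star a) : bil J x y = 0 := by
  have h2 : Φ.E (star a) *ᵥ y = 0 := by
    rw [← hy, mulVec_mulVec, E_orth Φ (Ne.symm h), zero_mulVec]
  unfold bil
  rw [← hx, ← vecMul_transpose, ← dotProduct_mulVec, mulVec_mulVec, hst,
    ← mulVec_mulVec, h2, mulVec_zero, dotProduct_zero]

include hst hss in
theorem R_zero {a b : Φ.S} (h : Φ.κ b ≠ star (Φ.κ a)) : Φ.R a b = 0 := by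
  classical
  have hRQ : Φ.R * Φ.Q = 1 := mul_eq_one_comm.1 Φ.QR
  let D : Φ.T → Matrix Φ.S Φ.S F := fun t => diagonal fun s => if Φ.κ s = t then 1 else 0
  have h1 : ∀ t, D t * Φ.Q = Φ.Q * D (star t) := by
    intro t
    ext x y
    simp only [D]
    rw [diagonal_mul, mul_diagonal]
    by_cases hx : Φ.κ x = t
    · by_cases hy : Φ.κ y = star t
      · rw [if_pos hx, if_pos hy, mul_one, one_mul]
      · rw [if_neg hy, Q_zero Φ hst hss (by rw [hx]; exact hy), mul_zero, zero_mul]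
    · by_cases hy : Φ.κ y = star t
      · rw [if_neg hx, Q_zero Φ hst hss (a := x) (b := y) (by
          intro h2
          apply hx
          rw [← hss (Φ.κ x), ← h2, hy, hss]), mul_zero, zero_mul]
      · rw [if_neg hx, if_neg hy, mul_zero, zero_mul]
  have h2 : Φ.R * D (Φ.κ b) = D (star (Φ.κ b)) * Φ.R := by
    have h3 := h1 (star (Φ.κ b))
    rw [hss] at h3
    calc Φ.R * D (Φ.κ b) = Φ.R * (D (Φ.κ b) * Φ.Q) * Φ.R := by
          rw [mul_assoc, mul_assoc, Φ.QR, mul_one]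
      _ = Φ.R * (Φ.Q * D (star (Φ.κ b))) * Φ.R := by rw [h1]
      _ = D (star (Φ.κ b)) * Φ.R := by rw [← mul_assoc, hRQ, one_mul]
  have h4 := congrFun (congrFun h2 a) b
  simp only [D] at h4
  rw [diagonal_mul, mul_diagonal, if_pos rfl, mul_one, if_neg, zero_mul] at h4
  · exact h4
  · intro h5
    apply h
    rw [h5, hss]

theorem RQ_apply (a b : Φ.S) : ∑ p, Φ.R a p * Φ.Q p b = if a = b then 1 else 0 := by
  have hRQ : Φ.R * Φ.Q = 1 := mul_eq_one_comm.1 Φ.QR
  have h := congrFun (congrFun hRQ a) b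
  rwa [Matrix.mul_apply, Matrix.one_apply] at h

theorem bil_sum_left {ι : Type} (A : Finset ι) (c : ι → F) (f : ι → Fin N → F) (y : Fin N → F) :
    bil J (∑ i ∈ A, c i • f i) y = ∑ i ∈ A, c i * bil J (f i) y := by
  unfold bil
  rw [sum_dotProduct]
  exact Finset.sum_congr rfl fun i _ => by rw [smul_dotProduct, smul_eq_mul]

theorem bil_sum_right {ι : Type} (A : Finset ι) (c : ι → F) (f : ι → Fin N → F) (y : Fin N → F) :
    bil J y (∑ i ∈ A, c i • f i) = ∑ i ∈ A, c i * bil J y (f i) := by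
  unfold bil
  rw [Matrix.mulVec_sum, dotProduct_sum]
  exact Finset.sum_congr rfl fun i _ => by rw [mulVec_smul, dotProduct_smul, smul_eq_mul]

include hst hss hsn in
/-- a pair of vectors which does not see a given short list of basis vectors -/
theorem exists_pair (t : Φ.T) (I : Fin k → Φ.S) (hk : k < n) :
    ∃ w w' : Fin N → F, Φ.E t *ᵥ w = w ∧ Φ.E (star t) *ᵥ w' = w' ∧ bil J w' w = 1 ∧
      (∀ j, bil J w' (Φ.β (I j)) = 0) ∧ ∀ j, bil J w (Φ.β (I j)) = 0 := by
  classical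
  let A : Finset Φ.S := blk Φ.κ t \ Finset.univ.image I
  let B : Finset (Fin k) := Finset.univ.filter fun j => Φ.κ (I j) = star t
  have hcard : B.card < A.card := by
    have h1 : ((blk Φ.κ t) ∩ Finset.univ.image I).card ≤
        (Finset.univ.filter fun j : Fin k => Φ.κ (I j) = t).card := by
      refine le_trans (Finset.card_le_card ?_) (Finset.card_image_le (f := I))
      intro x hx
      rw [Finset.mem_inter, Finset.mem_image] at hx
      obtain ⟨hx1, j, -, hj⟩ := hx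
      rw [Pool.Agent.TH125.Nod.mem_blk] at hx1
      rw [Finset.mem_image]
      refine ⟨j, ?_, hj⟩
      rw [Finset.mem_filter]
      exact ⟨Finset.mem_univ _, by rw [hj]; exact hx1⟩
    have h2 : B.card + (Finset.univ.filter fun j : Fin k => Φ.κ (I j) = t).card ≤ k := by
      rw [← Finset.card_union_of_disjoint]
      · refine (Finset.card_le_univ _).trans (le_of_eq (Fintype.card_fin k))
      · rw [Finset.disjoint_left]
        intro j hj hj'
        rw [Finset.mem_filter] at hj hj'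
        exact hsn t (hj.2.symm.trans hj'.2)
    have h3 : (blk Φ.κ t).card = ((blk Φ.κ t) ∩ Finset.univ.image I).card + A.card :=
      (Finset.card_inter_add_card_sdiff _ _).symm
    have h4 := Φ.many t
    omega
  let L : (A → F) →ₗ[F] (B → F) :=
    { toFun := fun x j => ∑ a : A, x a * bil J (Φ.β a) (Φ.β (I j))
      map_add' := fun x y => by
        funext j
        simp only [Pi.add_apply, add_mul, Finset.sum_add_distrib]
      map_smul' := fun c x => by
        funext j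
        simp only [Pi.smul_apply, smul_eq_mul, RingHom.id_apply, Finset.mul_sum, mul_assoc] }
  have hker : LinearMap.ker L ≠ ⊥ := by
    apply LinearMap.ker_ne_bot_of_finrank_lt
    rw [Module.finrank_fintype_fun_eq_card, Module.finrank_fintype_fun_eq_card,
      Fintype.card_coe, Fintype.card_coe]
    exact hcard
  obtain ⟨x, hxk, hx0⟩ := Submodule.exists_mem_ne_zero_of_ne_bot hker
  obtain ⟨a0, ha0⟩ : ∃ a0, x a0 ≠ 0 := by
    by_contra hcon
    push Not at hcon
    exact hx0 (funext hcon)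
  have hL : ∀ j : B, ∑ a : A, x a * bil J (Φ.β a) (Φ.β (I j)) = 0 := by
    intro j
    exact congrFun (LinearMap.mem_ker.1 hxk) j
  have hAt : ∀ a : A, Φ.κ a = t := by
    intro a
    have := (Finset.mem_sdiff.1 a.2).1
    rwa [Pool.Agent.TH125.Nod.mem_blk] at this
  have hAI : ∀ (a : A) (j : Fin k), (a : Φ.S) ≠ I j := by
    intro a j h
    exact (Finset.mem_sdiff.1 a.2).2 (Finset.mem_image.2 ⟨j, Finset.mem_univ _, h.symm⟩)
  let w : Fin N → F := ∑ a : A, x a • Φ.β a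
  let w' : Fin N → F := (x a0)⁻¹ • ∑ p : Φ.S, Φ.R a0 p • Φ.β p
  have hw : Φ.E t *ᵥ w = w := by
    simp only [w]
    rw [Matrix.mulVec_sum]
    refine Finset.sum_congr rfl fun a _ => ?_
    rw [mulVec_smul, Φ.Eβ, if_pos (hAt a)]
  have hw' : Φ.E (star t) *ᵥ w' = w' := by
    simp only [w']
    rw [mulVec_smul, Matrix.mulVec_sum]
    congr 1
    refine Finset.sum_congr rfl fun p _ => ?_
    rw [mulVec_smul, Φ.Eβ]
    by_cases hp : Φ.κ p = star t
    · rw [if_pos hp]
    · rw [if_neg hp, R_zero Φ hst hss (a := (a0 : Φ.S)) (b := p) (by rw [hAt]; exact hp),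
        zero_smul, zero_smul]
  have hb : ∀ s, bil J w' (Φ.β s) = (x a0)⁻¹ * if (a0 : Φ.S) = s then 1 else 0 := by
    intro s
    have h1 : bil J w' (Φ.β s) = (x a0)⁻¹ * bil J (∑ p : Φ.S, Φ.R a0 p • Φ.β p) (Φ.β s) := by
      simp only [w']
      unfold bil
      rw [smul_dotProduct, smul_eq_mul]
    rw [h1, bil_sum_left]
    congr 1
    rw [← RQ_apply]
    exact Finset.sum_congr rfl fun p _ => by rw [Φ.hQ]
  refine ⟨w, w', hw, hw', ?_, fun j => ?_, fun j => ?_⟩
  · simp only [w]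
    rw [bil_sum_right, Finset.sum_eq_single a0]
    · rw [hb, if_pos rfl, mul_one, mul_inv_cancel₀ ha0]
    · intro a _ ha
      rw [hb, if_neg (fun h => ha (Subtype.ext h.symm)), mul_zero, mul_zero]
    · intro h
      exact absurd (Finset.mem_univ _) h
  · rw [hb, if_neg (hAI a0 j), mul_zero]
  · by_cases hj : Φ.κ (I j) = star t
    · have hjB : j ∈ B := Finset.mem_filter.2 ⟨Finset.mem_univ _, hj⟩
      simp only [w]
      rw [bil_sum_left]
      exact hL ⟨j, hjB⟩
    · refine bil_zero Φ hst hw (y := Φ.β (I j)) (b := Φ.κ (I j)) ?_ hj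
      rw [Φ.Eβ, if_pos rfl]

end lie

section inv

open Pool.Agent.Y259.SV (kill)

variable {star : Φ.T → Φ.T} (hst : ∀ t, (Φ.E t)ᵀ * J = J * Φ.E (star t))
  (hss : ∀ t, star (star t) = t) (hsn : ∀ t, star t ≠ t)
  (φ : MultilinearMap F (fun _ : Fin k => Fin N → F) F)
  (hφ : ∀ X, SULie J 𝒞 X → ∀ v : Fin k → Fin N → F,
    ∑ j, φ (Function.update v j (X *ᵥ v j)) = 0)

theorem mem_kill {X : Matrix (Fin N) (Fin N) F} {v : Fin k → Fin N → F} :
    X ∈ kill φ v ↔ ∑ j, φ (Function.update v j (X *ᵥ v j)) = 0 := Iff.rfl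

/-- the action of a matrix on a multilinear form -/
noncomputable def actM (X : Matrix (Fin N) (Fin N) F) :
    MultilinearMap F (fun _ : Fin k => Fin N → F) F :=
  ∑ j, φ.compLinearMap (Function.update (fun _ => LinearMap.id) j X.mulVecLin)

theorem actM_apply (X : Matrix (Fin N) (Fin N) F) (v : Fin k → Fin N → F) :
    actM φ X v = ∑ j, φ (Function.update v j (X *ᵥ v j)) := by
  unfold actM
  rw [_root_.sum_apply]
  refine Finset.sum_congr rfl fun j _ => ?_
  rw [MultilinearMap.compLinearMap_apply]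
  congr 1
  funext i
  by_cases h : i = j
  · subst h
    rw [Function.update_self, Function.update_self, Matrix.mulVecLin_apply]
  · rw [Function.update_of_ne h, Function.update_of_ne h, LinearMap.id_apply]

theorem kill_of_basis {X : Matrix (Fin N) (Fin N) F}
    (h : ∀ I : Fin k → Φ.S, X ∈ kill φ (fun j => Φ.β (I j))) (v : Fin k → Fin N → F) :
    X ∈ kill φ v := by
  have h1 : actM φ X = 0 := Φ.ext_ml _ _ fun I => by
    rw [actM_apply]
    exact h I
  rw [mem_kill, ← actM_apply, h1]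
  rfl

include hst hss hsn hφ in
/-- the center of the general linear Lie algebra kills the form -/
theorem center_kill [CharZero F] {s : F} (hs : s * s = 1) (hJ : Jᵀ = s • J)
    (hdet : J.det ≠ 0) (hcomm : ∀ A ∈ 𝒞, ∀ B ∈ 𝒞, A * B = B * A) (hk : k < n) (t : Φ.T)
    (v : Fin k → Fin N → F) : Φ.E t - Φ.E (star t) ∈ kill φ v := by
  classical
  have hn : 0 < n := lt_of_le_of_lt (Nat.zero_le _) hk
  refine kill_of_basis Φ φ (fun I => ?_) v
  obtain ⟨w, w', hw, hw', hww, h1, h2⟩ := exists_pair Φ hst hss hsn t I hk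
  have hw'' : Φ.E (star (star t)) *ᵥ w = w := by rw [hss]; exact hw
  have hmem := sw_mem Φ hst hss hn hs hJ hdet hcomm hw' hw''
  rw [hww, hss] at hmem
  have h3 := hφ _ hmem (fun j => Φ.β (I j))
  have htr := trace_ne Φ hn (star t)
  rw [mem_kill]
  have h4 : ∀ j, φ (Function.update (fun j => Φ.β (I j)) j
      ((sw s J w' w - (1 / (Φ.E (star t)).trace) • (Φ.E t - Φ.E (star t))) *ᵥ Φ.β (I j))) =
      -(1 / (Φ.E (star t)).trace) * φ (Function.update (fun j => Φ.β (I j)) j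
        ((Φ.E t - Φ.E (star t)) *ᵥ Φ.β (I j))) := by
    intro j
    rw [sub_mulVec, sw_mulVec, h1 j, h2 j, mul_zero, zero_smul, zero_smul, sub_zero, zero_sub,
      smul_mulVec, ← neg_smul, MultilinearMap.map_update_smul, smul_eq_mul]
  rw [Finset.sum_congr rfl fun j _ => h4 j, ← Finset.mul_sum] at h3
  rcases mul_eq_zero.1 h3 with h5 | h5
  · exfalso
    rw [neg_eq_zero, one_div, inv_eq_zero] at h5
    exact htr h5
  · exact h5

include hst hss hsn hφ in
theorem sw_kill [CharZero F] {s : F} (hs : s * s = 1) (hJ : Jᵀ = s • J)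
    (hdet : J.det ≠ 0) (hcomm : ∀ A ∈ 𝒞, ∀ B ∈ 𝒞, A * B = B * A) (hk : k < n) {a : Φ.T}
    {x y : Fin N → F} (hx : Φ.E a *ᵥ x = x) (hy : Φ.E (star a) *ᵥ y = y)
    (v : Fin k → Fin N → F) : sw s J x y ∈ kill φ v := by
  have hn : 0 < n := lt_of_le_of_lt (Nat.zero_le _) hk
  have h1 : sw s J x y - (bil J x y / (Φ.E a).trace) • (Φ.E (star a) - Φ.E a) ∈ kill φ v :=
    hφ _ (sw_mem Φ hst hss hn hs hJ hdet hcomm hx hy) v
  have h2 := center_kill Φ hst hss hsn φ hφ hs hJ hdet hcomm hk (star a) v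
  rw [hss] at h2
  have h3 := (kill φ v).add_mem h1 ((kill φ v).smul_mem (bil J x y / (Φ.E a).trace) h2)
  rwa [sub_add_cancel] at h3

include hst hss hsn hφ in
theorem typ_inv [CharZero F] {z : ℤ} (hs : (z : F) * z = 1) (hJ : Jᵀ = (z : F) • J)
    (hdet : J.det ≠ 0) (hcomm : ∀ A ∈ 𝒞, ∀ B ∈ 𝒞, A * B = B * A) (hk : k < n)
    (τ : Fin k → Φ.T) :
    InvS Φ.κ Φ.Q star (z : F) (typ Φ.κ τ (fun I => φ (fun j => Φ.β (I j)))) := by
  classical
  have hty : ∀ (I : Fin k → Φ.S) (j : Fin k) (y : Φ.S), Φ.κ y = Φ.κ (I j) →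
      ((∀ l, Φ.κ (Function.update I j y l) = τ l) ↔ ∀ l, Φ.κ (I l) = τ l) := by
    intro I j y hy
    refine forall_congr' fun l => ?_
    by_cases h : l = j
    · subst h
      rw [Function.update_self, hy]
    · rw [Function.update_of_ne h]
  have hone : ∀ (b c : Φ.S) (_ : Φ.κ c = star (Φ.κ b)) (I : Fin k → Φ.S) (j : Fin k),
      Φ.Q b (I j) * typ Φ.κ τ (fun I => φ (fun j => Φ.β (I j))) (Function.update I j c) =
        (if ∀ l, Φ.κ (I l) = τ l then 1 else 0) *
          (Φ.Q b (I j) * φ (fun i => Φ.β (Function.update I j c i))) := by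
    intro b c hcb I j
    by_cases h : Φ.κ (I j) = star (Φ.κ b)
    · unfold typ
      have h3 := hty I j c (by rw [hcb, h])
      by_cases h4 : ∀ l, Φ.κ (I l) = τ l
      · rw [if_pos (h3.2 h4), if_pos h4, one_mul]
      · rw [if_neg (fun h5 => h4 (h3.1 h5)), if_neg h4, mul_zero, zero_mul]
    · rw [Q_zero Φ hst hss h, zero_mul, zero_mul, mul_zero]
  intro u v huv I
  have hvu : Φ.κ u = star (Φ.κ v) := by rw [huv, hss]
  have e1 : ∑ j, (Φ.Q v (I j) * φ (fun i => Φ.β (Function.update I j u i)) -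
        ((z : F) * Φ.Q u (I j)) * φ (fun i => Φ.β (Function.update I j v i))) = 0 := by
    have h1 := sw_kill Φ hst hss hsn φ hφ hs hJ hdet hcomm hk (a := Φ.κ v) (x := Φ.β v)
      (y := Φ.β u) (by rw [Φ.Eβ, if_pos rfl]) (by rw [Φ.Eβ, if_pos hvu]) (fun j => Φ.β (I j))
    rw [mem_kill] at h1
    rw [← h1]
    refine Finset.sum_congr rfl fun j _ => ?_
    rw [sw_mulVec, MultilinearMap.map_update_sub, MultilinearMap.map_update_smul,
      MultilinearMap.map_update_smul, Φ.hQ, Φ.hQ]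
    have h2 : ∀ x : Φ.S, Function.update (fun j => Φ.β (I j)) j (Φ.β x) =
        fun i => Φ.β (Function.update I j x i) := by
      intro x
      exact (Function.comp_update (fun y => Φ.β y) I j x).symm
    rw [h2, h2, smul_eq_mul, smul_eq_mul]
  have e2 : ∀ j, (Φ.Q v (I j) • typ Φ.κ τ (fun I => φ (fun j => Φ.β (I j)))
        (Function.update I j u) - ((z : F) * Φ.Q u (I j)) •
        typ Φ.κ τ (fun I => φ (fun j => Φ.β (I j))) (Function.update I j v)) =
      (if ∀ l, Φ.κ (I l) = τ l then 1 else 0) *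
        (Φ.Q v (I j) * φ (fun i => Φ.β (Function.update I j u i)) -
        ((z : F) * Φ.Q u (I j)) * φ (fun i => Φ.β (Function.update I j v i))) := by
    intro j
    rw [smul_eq_mul, smul_eq_mul, hone v u hvu I j, mul_assoc, hone u v huv I j]
    ring
  rw [Finset.sum_congr rfl fun j _ => e2 j, ← Finset.mul_sum, e1, mul_zero]

include hst hss in
theorem TT_from {m : ℕ} (e : Fin m × Fin 2 ≃ Fin k)
    (c : Fin k → Φ.T) : (fun v => TT Φ e c v) ∈ FromHerm J 𝒞 k := by
  refine Submodule.subset_span ⟨Function.Involutive.toPerm (mate e) (mate_mate e),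
    fun j => Φ.E (star (c (mate e j))) * Φ.E (c j),
    mate_mate e, mate_ne e, fun j => 𝒞.mul_mem (Φ.mem _) (Φ.mem _), fun v => ?_⟩
  change TT Φ e c v = _
  rw [TT_apply]
  refine Finset.prod_congr rfl fun j _ => ?_
  change _ = ((Φ.E (star (c (mate e j))) * Φ.E (c j)) *ᵥ v j) ⬝ᵥ J *ᵥ v (mate e j)
  have h1 : J * Φ.E (c (mate e j)) = (Φ.E (star (c (mate e j))))ᵀ * J := by
    rw [hst, hss]
  unfold bil
  rw [mulVec_mulVec, h1, ← mulVec_mulVec, dotProduct_mulVec, vecMul_transpose,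
    mulVec_mulVec]

end inv

include Φ in
/-- the theorem for a frame -/
theorem main1 [CharZero F] {z : ℤ} (hz : z = 1 ∨ z = -1) (hJ : Jᵀ = (z : F) • J)
    (hH : Herm J 𝒞) (hk : k < n)
    (φ : MultilinearMap F (fun _ : Fin k => Fin N → F) F)
    (hφ : ∀ X, SULie J 𝒞 X → ∀ v : Fin k → Fin N → F,
      ∑ j, φ (Function.update v j (X *ᵥ v j)) = 0) :
    (fun v => φ v) ∈ FromHerm J 𝒞 k := by
  classical
  have hn : 0 < n := lt_of_le_of_lt (Nat.zero_le _) hk
  obtain ⟨star, hst, hss, hsn⟩ := exists_star Φ hn hH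
  have hdet := hH.2.1
  have hcomm := hH.2.2.1
  have hs : (z : F) * (z : F) = 1 := by
    rcases hz with h | h <;> rw [h] <;> norm_num
  let evq : MultilinearMap F (fun _ : Fin k => Fin N → F) F →ₗ[F]
      ((Fin k → Φ.S) → F) :=
    { toFun := fun T I => T (fun j => Φ.β (I j))
      map_add' := fun _ _ => rfl
      map_smul' := fun _ _ => rfl }
  have hinj : Function.Injective evq := fun T T' h => Φ.ext_ml T T' fun I => congrFun h I
  let eve : MultilinearMap F (fun _ : Fin k => Fin N → F) F →ₗ[F] ((Fin k → Fin N → F) → F) :=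
    { toFun := fun T v => T v
      map_add' := fun _ _ => rfl
      map_smul' := fun _ _ => rfl }
  let GG : Set (MultilinearMap F (fun _ : Fin k => Fin N → F) F) :=
    {T | ∃ (m : ℕ) (e : Fin m × Fin 2 ≃ Fin k) (c : Fin k → Φ.T), T = TT Φ e c}
  have h2 : evq φ ∈ (Submodule.span F GG).map evq := by
    have e0 : evq φ = fun I : Fin k → Φ.S => φ (fun j => Φ.β (I j)) := rfl
    rw [e0, ← sum_typ Φ.κ (fun I : Fin k → Φ.S => φ (fun j => Φ.β (I j)))]
    refine Submodule.sum_mem _ fun τ _ => ?_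
    have hkey := fftS (K := F) (B := Φ.S) (ι := Φ.T) (M := F) (κ := Φ.κ) (Q := Φ.Q) (R := Φ.R)
      (star := star) (s := z) hz hss (fun a b h => Q_zero Φ hst hss h)
      (fun a b h => R_zero Φ hst hss h)
      (fun a b => by rw [Φ.hQ, Φ.hQ]; exact bil_s hJ _ _) Φ.QR k (Fin k) τ
      (typ Φ.κ τ (fun I => φ (fun j => Φ.β (I j)))) (Fintype.card_fin k)
      (fun I hI => if_neg hI)
      (typ_inv Φ hst hss hsn φ hφ hs hJ hdet hcomm hk τ)
      (fun i _ hi => absurd hi (hsn i))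
    have hle : Gen (M := F) Φ.κ Φ.Q τ ≤ (Submodule.span F GG).map evq := by
      unfold Gen
      rw [Submodule.span_le]
      rintro _ ⟨m, e, w, rfl⟩
      obtain ⟨s', hs'⟩ := TT_gen Φ hJ e τ w
      refine ⟨s' • TT Φ e τ, Submodule.smul_mem _ _ (Submodule.subset_span ⟨m, e, τ, rfl⟩), ?_⟩
      funext I
      exact (hs' I).symm
    exact hle hkey
  obtain ⟨T, hT, hT'⟩ := h2
  have h3 : φ ∈ Submodule.span F GG := by
    rw [← hinj hT']
    exact hT
  have h4 : eve φ ∈ (Submodule.span F GG).map eve := Submodule.mem_map_of_mem h3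
  rw [Submodule.map_span] at h4
  refine Submodule.span_le.2 ?_ h4
  rintro _ ⟨_, ⟨m, e, c, rfl⟩, rfl⟩
  exact TT_from Φ hst hss e c

theorem t_fftu : S_FFTU := by
  classical
  intro F _ _ _ N n J 𝒞 hH hred hrank k φ hk hφ
  obtain ⟨Φ⟩ := exists_frm (n := n) hH.2.1 hH.2.2.1 hred hrank
  rcases hH.1 with h | h
  · refine main1 Φ (z := 1) (Or.inl rfl) ?_ hH hk φ hφ
    rw [h]
    push_cast
    rw [one_smul]
  · refine main1 Φ (z := -1) (Or.inr rfl) ?_ hH hk φ hφ
    rw [h]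
    push_cast
    rw [neg_smul, one_smul]

end Pool.Agent.X274.SU
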